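import Pool.Agent.Lib.MP_312e4a.Holder

/-!
# MP_312e4a_an: the Grothendieck property for Hölder functions on an arbitrary metric space

For `0 < α < 1` and every (pseudo)metric space `X` with base point `x0` (for example `X = ℓ_2`), the Banach
space `Lip_0(X, d^α)` of the `α`-Hölder functions vanishing at `x0` is a Grothendieck space. The statement is
the frozen statement `S04253` with `ℓ_2`, `0` replaced by `X`, `x0` and the metric replaced by its power `α`.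
-/

namespace Pool.Agent.Results.MP_312e4a_an.HolderGrothendieck

open Filter Topology Pool.Agent.MP312e4a

/-- **Main theorem.** Every weak*-null sequence of bounded linear functionals on the space of `α`-Hölder
functions on `X` vanishing at `x0` is weakly null: every subsequence has convex combinations of arbitrarily
small dual norm. -/
theorem result {X : Type*} [PseudoMetricSpace X] (x0 : X) (α : ℝ) (hα0 : 0 < α) (hα1 : α < 1)
    (φ : ℕ → (X → ℝ) → ℝ)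
    (hlin : ∀ n : ℕ, ∀ f g : X → ℝ, ∀ a b : ℝ,
      f x0 = 0 → (∃ K : ℝ, 0 ≤ K ∧ ∀ x y, |f x - f y| ≤ K * dist x y ^ α) →
      g x0 = 0 → (∃ K : ℝ, 0 ≤ K ∧ ∀ x y, |g x - g y| ≤ K * dist x y ^ α) →
      φ n (a • f + b • g) = a * φ n f + b * φ n g)
    (hbdd : ∀ n : ℕ, ∃ C : ℝ, ∀ f : X → ℝ, ∀ K : ℝ, 0 ≤ K →
      f x0 = 0 → (∀ x y, |f x - f y| ≤ K * dist x y ^ α) → |φ n f| ≤ C * K)
    (hnull : ∀ f : X → ℝ, f x0 = 0 → (∃ K : ℝ, 0 ≤ K ∧ ∀ x y, |f x - f y| ≤ K * dist x y ^ α) →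
      Tendsto (fun n : ℕ => φ n f) atTop (nhds 0))
    (s : ℕ → ℕ) (hs : StrictMono s) (ε : ℝ) (hε : 0 < ε) :
    ∃ t : Finset ℕ, ∃ c : ℕ → ℝ, (∀ i ∈ t, 0 ≤ c i) ∧ (∑ i ∈ t, c i) = 1 ∧
      ∀ f : X → ℝ, f x0 = 0 → (∀ x y, |f x - f y| ≤ dist x y ^ α) →
        |∑ i ∈ t, c i * φ (s i) f| ≤ ε := by
  classical
  set q : ℝ := (2 : ℝ) ^ α with hqd
  set p : ℝ := (2 : ℝ) ^ (1 - α) with hpd
  have hq : 1 < q := Real.one_lt_rpow (by norm_num) hα0
  have hp : 1 < p := Real.one_lt_rpow (by norm_num) (by linarith)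
  have hpq : p * q = 2 := by
    rw [hpd, hqd, ← Real.rpow_add (by norm_num)]
    have : 1 - α + α = 1 := by ring
    rw [this, Real.rpow_one]
  set ρ : X → X → ℝ := fun x y => dist x y ^ α with hρ
  set S : ℝ := ∑' i, sc p q i with hSd
  have hS : 0 ≤ S := tsum_nonneg fun i => sc_nonneg hp hq i
  -- uniform bound
  obtain ⟨C, hC0, hC⟩ := unif_bdd (ρ := ρ) (x0 := x0) (φ := φ)
    (fun n f g hf hg a b => by
      obtain ⟨K, hK, h1, h2⟩ := hf
      obtain ⟨K', hK', h1', h2'⟩ := hg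
      exact hlin n f g a b h1 ⟨K, hK, h2⟩ h1' ⟨K', hK', h2'⟩)
    (fun n => by
      obtain ⟨C, hC⟩ := hbdd n
      exact ⟨C, fun f K hK hf => hC f K hK hf.1 hf.2⟩)
    (fun f hf => by
      obtain ⟨K, hK, h1, h2⟩ := hf
      have h3 := (hnull f h1 ⟨K, hK, h2⟩).abs
      obtain ⟨C, hC⟩ := h3.bddAbove_range
      exact ⟨C, fun n => hC ⟨n, rfl⟩⟩)
  -- images of elements of the span
  have hPK : ∀ h ∈ BH X, ∃ K : ℝ, 0 ≤ K ∧ HK ρ x0 K (Ph q x0 h) := fun h hh =>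
    ⟨_, by positivity, Ph_HK hp hq hpq hα0 hqd hh zero_le_one hh.1 0⟩
  have hzero : ∀ n, φ n 0 = 0 := fun n => by
    have h0 : ∃ K : ℝ, 0 ≤ K ∧ ∀ x y : X, |(0 : X → ℝ) x - (0 : X → ℝ) y| ≤ K * dist x y ^ α :=
      ⟨0, le_rfl, fun x y => by simp⟩
    have := hlin n 0 0 0 0 rfl h0 rfl h0
    simpa using this
  have hPW : ∀ h, Wd (BH X) h → ∃ K : ℝ, 0 ≤ K ∧ HK ρ x0 K (Ph q x0 h) := by
    rintro _ ⟨L, hL, g, hg, rfl⟩
    obtain ⟨K, hK, h1⟩ := hPK g hg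
    have h2 : Ph q x0 (L • g) = L • Ph q x0 g := by
      have := Ph_lin hp hq hpq hα0 hqd (x0 := x0) (Wd_ball isBall_BH hg) (Wd_ball isBall_BH hg) L 0
      simpa using this
    rw [h2]
    exact ⟨|L| * K, by positivity, h1.smul L⟩
  have hψlin : ∀ n, IsLin (BH X) fun h => φ (s n) (Ph q x0 h) := by
    intro n h g hh hg a b
    obtain ⟨K, hK, h1, h2⟩ := hPW h hh
    obtain ⟨K', hK', h1', h2'⟩ := hPW g hg
    change φ (s n) (Ph q x0 (a • h + b • g)) = _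
    rw [Ph_lin hp hq hpq hα0 hqd hh hg]
    exact hlin (s n) _ _ a b h1 ⟨K, hK, h2⟩ h1' ⟨K', hK', h2'⟩
  have : Nonempty (ℤ × X) := ⟨(0, x0)⟩
  obtain ⟨t, c, hc1, hc2, hc3⟩ := core (Γ := ℤ × X) isBall_BH (φ := fun n h => φ (s n) (Ph q x0 h))
    hψlin
    (fun h hh => by
      obtain ⟨K, hK, h1, h2⟩ := hPK h hh
      exact (hnull _ h1 ⟨K, hK, h2⟩).comp hs.tendsto_atTop)
    (fun ε hε => by
      -- choose `N` with a small tail
      have h1 : Tendsto (fun N : ℕ => C * (S * (2 * (p⁻¹) ^ N))) atTop (𝓝 (C * (S * (2 * 0)))) :=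
        ((((tendsto_pow_atTop_nhds_zero_of_lt_one (inv_nonneg.2 (by linarith))
          (inv_lt_one_of_one_lt₀ hp)).const_mul 2).const_mul S).const_mul C)
      rw [mul_zero, mul_zero, mul_zero] at h1
      obtain ⟨N, hN⟩ := (h1.eventually_le_const hε).exists
      refine ⟨C * (S * (2 * q ^ N)), fun n h hh t ht hle => ?_⟩
      have h2 := Ph_HK hp hq hpq hα0 hqd (x0 := x0) hh ht hle N
      have h3 := hC (s n) _ _ (by positivity) h2
      calc |φ (s n) (Ph q x0 h)| ≤ C * (S * (2 * t * q ^ N + 2 * (p⁻¹) ^ N)) := h3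
        _ = C * (S * (2 * (p⁻¹) ^ N)) + C * (S * (2 * q ^ N)) * t := by ring
        _ ≤ ε + C * (S * (2 * q ^ N)) * t := by linarith)
    (ε := ε / 2) (half_pos hε)
  refine ⟨t, c, hc1, hc2, fun f hf0 hf => ?_⟩
  obtain ⟨h, ⟨g, hg, rfl⟩, hhf⟩ := Ph_onto hp hq hpq hα0 hα1 hqd hf hf0
  have h1 := hc3 g hg
  have h2 : ∀ n, φ (s n) f = 2 * φ (s n) (Ph q x0 g) := by
    intro n
    have h3 := lin_smul isBall_BH (hψlin n) (Wd_ball isBall_BH hg) 2
    change φ (s n) (Ph q x0 ((2 : ℝ) • g)) = 2 * φ (s n) (Ph q x0 g) at h3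
    rw [hhf] at h3
    exact h3
  have h3 : ∑ i ∈ t, c i * φ (s i) f = 2 * ∑ i ∈ t, c i * φ (s i) (Ph q x0 g) := by
    rw [Finset.mul_sum]
    exact Finset.sum_congr rfl fun i _ => by rw [h2 i]; ring
  rw [h3, abs_mul, abs_of_pos (by norm_num : (0 : ℝ) < 2)]
  change |∑ i ∈ t, c i * φ (s i) (Ph q x0 g)| ≤ ε / 2 at h1
  linarith

end Pool.Agent.Results.MP_312e4a_an.HolderGrothendieck
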