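import Pool.Agent.Lib.MP_312e4a.Lip

/-!
# MP_312e4a_an: weak*-null sequences which are uniformly almost continuous for a weighted supremum norm

The statement is the frozen statement `S04253` (for an arbitrary metric space `X` with base point `x0`, for
example `X = ℓ_2`, `x0 = 0`) with one additional hypothesis `hunif` on the sequence.
-/

namespace Pool.Agent.Results.MP_312e4a_an.WeightedSupSequences

open Filter Topology Pool.Agent.MP312e4a

theorem lip_iff {X : Type*} [PseudoMetricSpace X] {f : X → ℝ} (K : NNReal) :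
    LipschitzWith K f ↔ ∀ x y, |f x - f y| ≤ K * dist x y := by
  rw [lipschitzWith_iff_dist_le_mul]
  simp only [Real.dist_eq]

/-- **Main theorem.** Let `φ` be a sequence of linear functionals on the space `Lip_0(X)` of the Lipschitz
functions on `X` vanishing at `x0`, which tends to zero pointwise (weak*), and suppose that for every `ε > 0`
there is `M` such that `|φ_n(f)| ≤ ε + M t` for all `n`, all `1`-Lipschitz `f` vanishing at `x0` and all `t` with
`|f(x)| ≤ t (1 + d(x, x0))` for all `x`. Then `φ` is weakly null: every subsequence has convex combinations of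
arbitrarily small dual norm. -/
theorem result {X : Type*} [PseudoMetricSpace X] (x0 : X) (φ : ℕ → (X → ℝ) → ℝ)
    (hlin : ∀ n : ℕ, ∀ f g : X → ℝ, ∀ a b : ℝ,
      f x0 = 0 → (∃ K : NNReal, LipschitzWith K f) →
      g x0 = 0 → (∃ K : NNReal, LipschitzWith K g) →
      φ n (a • f + b • g) = a * φ n f + b * φ n g)
    (hnull : ∀ f : X → ℝ, f x0 = 0 → (∃ K : NNReal, LipschitzWith K f) →
      Tendsto (fun n : ℕ => φ n f) atTop (nhds 0))
    (hunif : ∀ ε : ℝ, 0 < ε → ∃ M : ℝ, ∀ n : ℕ, ∀ f : X → ℝ, ∀ t : ℝ, f x0 = 0 → LipschitzWith 1 f →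
      0 ≤ t → (∀ x, |f x| ≤ t * (1 + dist x x0)) → |φ n f| ≤ ε + M * t)
    (s : ℕ → ℕ) (hs : StrictMono s) (ε : ℝ) (hε : 0 < ε) :
    ∃ t : Finset ℕ, ∃ c : ℕ → ℝ, (∀ i ∈ t, 0 ≤ c i) ∧ (∑ i ∈ t, c i) = 1 ∧
      ∀ f : X → ℝ, f x0 = 0 → LipschitzWith 1 f → |∑ i ∈ t, c i * φ (s i) f| ≤ ε := by
  classical
  have hw : ∀ x : X, 0 < 1 + dist x x0 := fun x => by positivity
  have hBw : ∀ h ∈ BL x0, wt x0 h x0 = 0 ∧ LipschitzWith 1 (wt x0 h) := by
    intro h hh
    refine ⟨by simp [wt, hh.1], (lip_iff 1).2 fun x y => ?_⟩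
    rw [NNReal.coe_one, one_mul]
    exact hh.2 x y
  have hWw : ∀ h, Wd (BL x0) h → wt x0 h x0 = 0 ∧ ∃ K : NNReal, LipschitzWith K (wt x0 h) := by
    rintro _ ⟨L, hL, g, hg, rfl⟩
    obtain ⟨h1, h2⟩ := hBw g hg
    have h3 : wt x0 (L • g) = L • wt x0 g := by
      have := wt_lin x0 g g L 0
      simpa using this
    rw [h3]
    refine ⟨by simp [h1], ⟨L, hL⟩, (lip_iff _).2 fun x y => ?_⟩
    have h4 := (lip_iff 1).1 h2 x y
    rw [NNReal.coe_one, one_mul] at h4
    rw [Pi.smul_apply, Pi.smul_apply, smul_eq_mul, smul_eq_mul, ← mul_sub, abs_mul, abs_of_nonneg hL]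
    exact mul_le_mul_of_nonneg_left h4 hL
  have : Nonempty X := ⟨x0⟩
  obtain ⟨t, c, hc1, hc2, hc3⟩ := core (Γ := X) (isBall_BL x0) (φ := fun n h => φ (s n) (wt x0 h))
    (fun n h g hh hg a b => by
      obtain ⟨h1, h2⟩ := hWw h hh
      obtain ⟨g1, g2⟩ := hWw g hg
      change φ (s n) (wt x0 (a • h + b • g)) = _
      rw [wt_lin]
      exact hlin (s n) _ _ a b h1 h2 g1 g2)
    (fun h hh => by
      obtain ⟨h1, h2⟩ := hBw h hh
      exact (hnull _ h1 ⟨1, h2⟩).comp hs.tendsto_atTop)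
    (fun ε hε => by
      obtain ⟨M, hM⟩ := hunif ε hε
      refine ⟨M, fun n h hh t ht hle => ?_⟩
      obtain ⟨h1, h2⟩ := hBw h hh
      refine hM (s n) (wt x0 h) t h1 h2 ht fun x => ?_
      rw [wt, abs_mul, abs_of_pos (hw x), mul_comm]
      exact mul_le_mul_of_nonneg_right (hle x) (hw x).le)
    (ε := ε) hε
  refine ⟨t, c, hc1, hc2, fun f hf0 hf => ?_⟩
  have hg : wt x0 (fun x => f x / (1 + dist x x0)) = f := by
    funext x
    have := (hw x).ne'
    rw [wt]
    field_simp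
  have hgB : (fun x => f x / (1 + dist x x0)) ∈ BL x0 := by
    refine ⟨by simp [hf0], fun x y => ?_⟩
    have h1 := (lip_iff 1).1 hf x y
    rw [NNReal.coe_one, one_mul] at h1
    have e : ∀ z : X, (1 + dist z x0) * (f z / (1 + dist z x0)) = f z := fun z => by
      have := (hw z).ne'
      field_simp
    rw [e, e]
    exact h1
  have h1 := hc3 _ hgB
  rw [hg] at h1
  exact h1

end Pool.Agent.Results.MP_312e4a_an.WeightedSupSequences
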